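import Mathlib

/-!
Uniform attachment trees, centrality, and the fraction of early vertices among the most central.
-/

namespace Pool.Agent.MP_6a6beb_pr

/-- The attachment choices: `ω i ∈ {0, …, i}` is the vertex to which vertex `i + 1` is joined. -/
abbrev Choice (n : ℕ) : Type := (i : Fin n) → Fin (i.val + 1)

/-- The tree on `{0, …, n}` in which vertex `i + 1` is joined to `ω i`. -/
def tree {n : ℕ} (ω : Choice n) : SimpleGraph (Fin (n + 1)) :=
  SimpleGraph.fromRel (fun u v => ∃ i : Fin n, u.val = i.val + 1 ∧ v.val = (ω i).val)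

/-- The number of vertices of the largest connected component left after deleting `v`. -/
noncomputable def centrality {V : Type} (G : SimpleGraph V) (v : V) : ℕ :=
  ⨆ c : (G.induce {u | u ≠ v}).ConnectedComponent, c.supp.ncard

/-- The `m` most central vertices, ties being broken by the ranking `σ`: the vertices preceded by
fewer than `m` vertices in the lexicographic order of `(centrality, σ)`. -/
def mostCentral {n : ℕ} (G : SimpleGraph (Fin (n + 1))) (σ : Equiv.Perm (Fin (n + 1))) (m : ℕ) :
    Set (Fin (n + 1)) :=
  {v | {u | centrality G u < centrality G v ∨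
    (centrality G u = centrality G v ∧ σ u < σ v)}.ncard < m}

/-- `R_{K,n}(c)`: the fraction of the vertices `0, …, K - 1` among the `⌈cK⌉` most central. -/
noncomputable def ratio (c : ℝ) (K : ℕ) {n : ℕ} (ω : Choice n) (σ : Equiv.Perm (Fin (n + 1))) :
    ℝ :=
  ((mostCentral (tree ω) σ ⌈c * K⌉₊ ∩ {v | v.val < K}).ncard : ℝ) / K

/-- `φ(c) = c (1 - e^{-1/c})`. -/
noncomputable def phi (c : ℝ) : ℝ := c * (1 - Real.exp (-1 / c))

/-- `P(|R_{K,n}(c) - φ(c)| > δ)` for uniform independent attachment choices and a uniform
independent tie-breaking permutation. -/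
noncomputable def deviationProb (c δ : ℝ) (K n : ℕ) : ℝ :=
  (Nat.card {x : Choice n × Equiv.Perm (Fin (n + 1)) // δ < |ratio c K x.1 x.2 - phi c|} : ℝ) /
    Nat.card (Choice n × Equiv.Perm (Fin (n + 1)))

end Pool.Agent.MP_6a6beb_pr
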